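import Pool.Agent.U643.BSD.Grp
import Mathlib

/-! A Galois extension of a number field with a large abelian quotient. -/

set_option autoImplicit false

namespace Pool.Agent.U643.BSD

open Polynomial IntermediateField

theorem unit_pow {q1 q2 : ℕ} (h1 : q1.Prime) (h2 : q2.Prime) (hne : q1 ≠ q2)
    (b : (ZMod (q1 * q2))ˣ) : b ^ (Nat.lcm (q1 - 1) (q2 - 1)) = 1 := by
  have i1 : Fact q1.Prime := ⟨h1⟩
  have i2 : Fact q2.Prime := ⟨h2⟩
  have hcop : Nat.Coprime q1 q2 := (Nat.coprime_primes h1 h2).2 hne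
  let e := ZMod.chineseRemainder hcop
  apply Units.ext
  apply e.injective
  rw [Units.val_pow_eq_pow_val, map_pow, Units.val_one, map_one]
  have hu : IsUnit (e (b : ZMod (q1 * q2))) := b.isUnit.map e
  ext
  · have h3 : IsUnit (e (b : ZMod (q1 * q2))).1 := hu.map (RingHom.fst _ _)
    obtain ⟨k, hk⟩ := Nat.dvd_lcm_left (q1 - 1) (q2 - 1)
    rw [Prod.pow_fst, hk, pow_mul, ZMod.pow_card_sub_one_eq_one h3.ne_zero, one_pow, Prod.fst_one]
  · have h3 : IsUnit (e (b : ZMod (q1 * q2))).2 := hu.map (RingHom.snd _ _)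
    obtain ⟨k, hk⟩ := Nat.dvd_lcm_right (q1 - 1) (q2 - 1)
    rw [Prod.pow_snd, hk, pow_mul, ZMod.pow_card_sub_one_eq_one h3.ne_zero, one_pow, Prod.snd_one]

/-- the order of the Galois group acting on roots of unity -/
theorem card_range {K L : Type} [Field K] [NumberField K] [Field L] [NumberField L] [Algebra K L]
    [IsGalois K L] {Q : ℕ} [NeZero Q] {ζ : L} (hζ : IsPrimitiveRoot ζ Q) :
    Nat.totient Q ∣ Module.finrank ℚ K * Nat.card (hζ.autToPow K).range := by
  have hker : (hζ.autToPow K).ker = (K⟮ζ⟯).fixingSubgroup := by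
    ext g
    rw [MonoidHom.mem_ker, IntermediateField.mem_fixingSubgroup_iff]
    have hspec := hζ.autToPow_spec K g
    constructor
    · intro h x hx
      have h1 : g ζ = ζ := by
        rw [← hspec, h, Units.val_one]
        rcases Nat.lt_or_ge 1 Q with h2 | h2
        · have : Fact (1 < Q) := ⟨h2⟩
          rw [ZMod.val_one, pow_one]
        · have h3 : Q = 1 := le_antisymm h2 (NeZero.pos Q)
          subst h3
          have h4 : ζ = 1 := IsPrimitiveRoot.one_right_iff.1 hζ
          rw [h4, one_pow]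
      have h2 : x ∈ (IntermediateField.fixedField (Subgroup.zpowers g)) := by
        have h3 : K⟮ζ⟯ ≤ IntermediateField.fixedField (Subgroup.zpowers g) := by
          rw [IntermediateField.adjoin_simple_le_iff, IntermediateField.mem_fixedField_iff]
          rintro _ ⟨k, rfl⟩
          have h5 : g ∈ MulAction.stabilizer Gal(L/K) ζ := h1
          exact Subgroup.zpow_mem _ h5 k
        exact h3 hx
      rw [IntermediateField.mem_fixedField_iff] at h2
      exact h2 g (Subgroup.mem_zpowers g)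
    · intro h
      have h1 : g ζ = ζ := h ζ (IntermediateField.mem_adjoin_simple_self K ζ)
      apply Units.ext
      rw [Units.val_one]
      have h2 : ζ ^ ((hζ.autToPow K g : (ZMod Q)ˣ) : ZMod Q).val = ζ ^ (1 : ZMod Q).val := by
        rw [hspec, h1]
        rcases Nat.lt_or_ge 1 Q with h2 | h2
        · have : Fact (1 < Q) := ⟨h2⟩
          rw [ZMod.val_one, pow_one]
        · have h3 : Q = 1 := le_antisymm h2 (NeZero.pos Q)
          subst h3
          have h4 : ζ = 1 := IsPrimitiveRoot.one_right_iff.1 hζ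
          rw [h4, one_pow]
      exact ZMod.val_injective Q (hζ.pow_inj (ZMod.val_lt _) (ZMod.val_lt _) h2)
  have h1 : Nat.card (hζ.autToPow K).range = Module.finrank K K⟮ζ⟯ := by
    rw [← Subgroup.index_ker, hker]
    exact (IntermediateField.finrank_eq_fixingSubgroup_index (L := K⟮ζ⟯)).symm
  rw [h1, Module.finrank_mul_finrank]
  let z : K⟮ζ⟯ := ⟨ζ, IntermediateField.mem_adjoin_simple_self K ζ⟩
  have hz : IsPrimitiveRoot z Q := by
    have : (algebraMap K⟮ζ⟯ L) z = ζ := rfl
    exact IsPrimitiveRoot.of_map_of_injective (f := algebraMap K⟮ζ⟯ L) (by rw [this]; exact hζ)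
      (algebraMap K⟮ζ⟯ L).injective
  have h2 : (minpoly ℚ z).natDegree = Nat.totient Q := by
    rw [← cyclotomic_eq_minpoly_rat hz (NeZero.pos Q), natDegree_cyclotomic]
  rw [← h2]
  exact minpoly.degree_dvd (IsIntegral.of_finite ℚ z)

/-- the large extension -/
theorem exists_big (K M : Type) [Field K] [NumberField K] [Field M] [NumberField M] [Algebra K M]
    {N : ℕ} (hN : 0 < N) :
    ∃ (L : Type) (_ : Field L) (_ : NumberField L) (_ : Algebra K L) (_ : IsGalois K L),
      Nonempty (M →ₐ[K] L) ∧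
      ∃ (B : Type) (_ : CommGroup B) (ρ : Gal(L/K) →* B) (lam : ℕ), Function.Surjective ρ ∧
        lam ≠ 0 ∧ (∀ b : B, b ^ lam = 1) ∧ lam * N ∣ Nat.card B := by
  classical
  have hd : 0 < Module.finrank ℚ K := Module.finrank_pos
  obtain ⟨q1, h1, -, h1'⟩ := Nat.exists_prime_gt_modEq_one (k := Module.finrank ℚ K * N) 1
    (Nat.mul_pos hd hN).ne'
  obtain ⟨q2, h2, hlt, h2'⟩ := Nat.exists_prime_gt_modEq_one (k := Module.finrank ℚ K * N) q1
    (Nat.mul_pos hd hN).ne'
  have hQ : NeZero (q1 * q2) := ⟨(Nat.mul_pos h1.pos h2.pos).ne'⟩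
  obtain ⟨α, hα⟩ := Field.exists_primitive_element K M
  set f : K[X] := minpoly K α * cyclotomic (q1 * q2) K with hf
  have hint : IsIntegral K α := IsIntegral.of_finite K α
  have hf0 : f ≠ 0 := mul_ne_zero (minpoly.ne_zero hint) (cyclotomic_ne_zero _ _)
  let L := f.SplittingField
  have iL : Module.Finite K L := inferInstance
  have iN : NumberField L := NumberField.of_module_finite K L
  have iG : IsGalois K L := { to_isSeparable := inferInstance, to_normal := Normal.of_isSplittingField f }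
  have hsp : (f.map (algebraMap K L)).Splits := SplittingField.splits f
  have hsp1 : ((minpoly K α).map (algebraMap K L)).Splits := by
    refine hsp.of_dvd ?_ ?_
    · exact (Polynomial.map_ne_zero_iff (algebraMap K L).injective).2 hf0
    · exact Polynomial.map_dvd _ (dvd_mul_right _ _)
  have hsp2 : ((cyclotomic (q1 * q2) K).map (algebraMap K L)).Splits := by
    refine hsp.of_dvd ?_ ?_
    · exact (Polynomial.map_ne_zero_iff (algebraMap K L).injective).2 hf0
    · exact Polynomial.map_dvd _ (dvd_mul_left _ _)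
  have hM : Nonempty (M →ₐ[K] L) := by
    refine IntermediateField.nonempty_algHom_of_adjoin_splits (S := {α}) (fun s hs => ?_) hα
    rw [Set.mem_singleton_iff] at hs
    subst hs
    exact ⟨hint, hsp1⟩
  obtain ⟨ζ, hζ⟩ : ∃ ζ : L, IsPrimitiveRoot ζ (q1 * q2) := by
    have hdeg : ((cyclotomic (q1 * q2) K).map (algebraMap K L)).degree ≠ 0 := by
      rw [map_cyclotomic]
      exact (degree_cyclotomic_pos _ L (NeZero.pos _)).ne'
    obtain ⟨ζ, hζ⟩ := hsp2.exists_eval_eq_zero hdeg
    refine ⟨ζ, ?_⟩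
    rw [map_cyclotomic] at hζ
    exact isRoot_cyclotomic_iff.1 hζ
  refine ⟨L, inferInstance, iN, inferInstance, iG, hM, (hζ.autToPow K).range, inferInstance,
    (hζ.autToPow K).rangeRestrict, Nat.lcm (q1 - 1) (q2 - 1),
    MonoidHom.rangeRestrict_surjective _, ?_, fun b => ?_, ?_⟩
  · exact Nat.lcm_ne_zero (Nat.sub_ne_zero_of_lt h1.one_lt) (Nat.sub_ne_zero_of_lt h2.one_lt)
  · exact Subtype.ext (unit_pow h1 h2 hlt.ne b.1)
  · have h3 := card_range (K := K) hζ
    rw [Nat.totient_mul ((Nat.coprime_primes h1 h2).2 hlt.ne), Nat.totient_prime h1,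
      Nat.totient_prime h2] at h3
    have h4 : Module.finrank ℚ K * N ∣ Nat.gcd (q1 - 1) (q2 - 1) :=
      Nat.dvd_gcd ((Nat.modEq_iff_dvd' h1.one_le).1 h1'.symm)
        ((Nat.modEq_iff_dvd' h2.one_le).1 h2'.symm)
    have h5 : Module.finrank ℚ K * (Nat.lcm (q1 - 1) (q2 - 1) * N) ∣
        Module.finrank ℚ K * Nat.card (hζ.autToPow K).range := by
      refine dvd_trans ?_ h3
      rw [← Nat.gcd_mul_lcm (q1 - 1) (q2 - 1), mul_left_comm, mul_comm]
      exact mul_dvd_mul_right h4 _
    exact (Nat.mul_dvd_mul_iff_left hd).1 h5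

end Pool.Agent.U643.BSD
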