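import Pool.Agent.R433.MD.Hyper

/-! The index of cyclic and hyperelementary subgroups of a group with a large abelian quotient. -/

set_option autoImplicit false

namespace Pool.Agent.U643.BSD

open Pool.Agent.R433.MD

section
variable {G B : Type} [Group G] [Finite G] [CommGroup B] (ρ : G →* B)
  (hρ : Function.Surjective ρ) {lam N : ℕ} (hl : ∀ b : B, b ^ lam = 1) (hl0 : lam ≠ 0)
  (hN : lam * N ∣ Nat.card B)

include hl in
theorem card_cyclic (C : Subgroup G) [IsCyclic C] : Nat.card (C.map ρ) ∣ lam := by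
  have h1 : IsCyclic (C.map ρ) :=
    isCyclic_of_surjective (ρ.subgroupMap C) (ρ.subgroupMap_surjective C)
  obtain ⟨g, hg⟩ := h1.exists_generator
  rw [← orderOf_eq_card_of_forall_mem_zpowers hg]
  refine orderOf_dvd_of_pow_eq_one (Subtype.ext ?_)
  exact hl g

include hl in
theorem card_hyper {p : ℕ} (hp : p.Prime) {H : Subgroup G} (hH : IsHyper p H) :
    ∃ a : ℕ, Nat.card (H.map ρ) ∣ lam * p ^ a := by
  obtain ⟨C, hC, hcyc, -, -, hpow⟩ := hH
  have hle : C.map ρ ≤ H.map ρ := Subgroup.map_mono hC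
  have : Fact p.Prime := ⟨hp⟩
  have hfin : Finite (H.map ρ) :=
    Finite.of_surjective (ρ.subgroupMap H) (ρ.subgroupMap_surjective H)
  have hpg : IsPGroup p (H.map ρ ⧸ (C.map ρ).subgroupOf (H.map ρ)) := by
    intro x
    obtain ⟨⟨_, h, hh, rfl⟩, rfl⟩ := QuotientGroup.mk_surjective x
    obtain ⟨k, hk⟩ := hpow h hh
    refine ⟨k, ?_⟩
    rw [← QuotientGroup.mk_pow, QuotientGroup.eq_one_iff, Subgroup.mem_subgroupOf]
    exact ⟨h ^ p ^ k, hk, map_pow _ _ _⟩
  obtain ⟨a, ha⟩ := hpg.exists_card_eq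
  refine ⟨a, ?_⟩
  have h1 : Nat.card (H.map ρ) = Nat.card (H.map ρ ⧸ (C.map ρ).subgroupOf (H.map ρ)) *
      Nat.card ((C.map ρ).subgroupOf (H.map ρ)) :=
    Subgroup.card_eq_card_quotient_mul_card_subgroup _
  have h2 : Nat.card ((C.map ρ).subgroupOf (H.map ρ)) = Nat.card (C.map ρ) :=
    Nat.card_congr (Subgroup.subgroupOfEquivOfLe hle).toEquiv
  rw [h1, h2, ha, mul_comm]
  exact mul_dvd_mul_right (card_cyclic ρ hl C) _

include hρ hl0 hN in
theorem index_of_card {H : Subgroup G} {t : ℕ} (h : Nat.card (H.map ρ) ∣ lam * t) :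
    N ∣ H.index * t := by
  have h1 : (H.map ρ).index * Nat.card (H.map ρ) = Nat.card B := Subgroup.index_mul_card _
  have h2 : lam * N ∣ lam * ((H.map ρ).index * t) := by
    refine hN.trans ?_
    rw [← h1, mul_left_comm]
    exact mul_dvd_mul_left _ h
  have h3 : N ∣ (H.map ρ).index * t := (Nat.mul_dvd_mul_iff_left (Nat.pos_of_ne_zero hl0)).1 h2
  exact h3.trans (mul_dvd_mul_right (Subgroup.index_map_dvd H hρ) t)

include hρ hl hl0 hN in
theorem index_cyclic (C : Subgroup G) [IsCyclic C] : N ∣ C.index := by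
  have h := index_of_card ρ hρ hl0 hN (H := C) (t := 1) (by
    rw [mul_one]
    exact card_cyclic ρ hl C)
  rwa [mul_one] at h

include hρ hl hl0 hN in
theorem index_hyper {p : ℕ} (hp : p.Prime) {H : Subgroup G} (hH : IsHyper p H) :
    ∃ a : ℕ, N ∣ H.index * p ^ a := by
  obtain ⟨a, ha⟩ := card_hyper ρ hl hp hH
  exact ⟨a, index_of_card ρ hρ hl0 hN ha⟩

include hρ hl hl0 in
/-- the index is divisible by one of two coprime numbers -/
theorem index_coprime {m n : ℕ} (hmn : Nat.Coprime m n) (hN' : lam * (m * n) ∣ Nat.card B)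
    {p : ℕ} (hp : p.Prime) {H : Subgroup G} (hH : IsHyper p H) : m ∣ H.index ∨ n ∣ H.index := by
  obtain ⟨a, ha⟩ := index_hyper ρ hρ hl hl0 hN' hp hH
  by_cases hpm : p ∣ m
  · right
    have h1 : Nat.Coprime n (p ^ a) := by
      refine Nat.Coprime.pow_right a ?_
      refine ((Nat.Prime.coprime_iff_not_dvd hp).2 fun h => ?_).symm
      have h2 := Nat.dvd_gcd hpm h
      rw [hmn.gcd_eq_one] at h2
      exact hp.one_lt.ne' (Nat.dvd_one.1 h2)
    exact h1.dvd_of_dvd_mul_right ((Dvd.intro_left m rfl).trans ha)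
  · left
    have h1 : Nat.Coprime m (p ^ a) :=
      Nat.Coprime.pow_right a ((Nat.Prime.coprime_iff_not_dvd hp).2 hpm).symm
    exact h1.dvd_of_dvd_mul_right ((Dvd.intro n rfl).trans ha)

end

end Pool.Agent.U643.BSD
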