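import Pool.Agent.R333.BR.Ord
import Pool.Agent.R433.MD.GalRel

/-! The rank part of the conjecture of Birch and Swinnerton-Dyer along relations of permutation
characters. -/

set_option autoImplicit false

namespace Pool.Agent.U643.BSD

open scoped Classical
open NumberField IsDedekindDomain Filter Topology
open Pool.Agent.H341R2.EC
open Pool.Agent.R433.MD
open Pool.Agent.R333.BR

/-- `L(E/K, s) ^ k` has a meromorphic continuation to `U` with order `k` times the rank at `1`. -/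
def RC {K : Type} [Field K] [NumberField K] (k : ℕ) (U : Set ℂ) (E : WeierstrassCurve K) : Prop :=
  ∃ r : ℕ, Module.rank ℤ E.toAffine.Point = r ∧
    ∃ V : HeightOneSpectrum (𝓞 K) → WeierstrassCurve (𝓞 K), (∀ v, IsMinAt E v (V v)) ∧
    ∃ Λ : ℂ → ℂ, MeromorphicOn Λ U ∧ (∀ s : ℂ, 3 / 2 < s.re → Λ s = LL V s ^ k) ∧
      meromorphicOrderAt Λ 1 = (((k : ℤ) * (r : ℤ) : ℤ) : WithTop ℤ)

/-- admissible domains -/
structure Dom (U : Set ℂ) : Prop where
  conn : IsPreconnected U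
  half : ∀ s : ℂ, 3 / 2 < s.re → s ∈ U
  one : (1 : ℂ) ∈ U

section
variable {K : Type} [Field K] [NumberField K]

/-- two systems of minimal models -/
theorem models_one {E : WeierstrassCurve K}
    (hE : E.IsElliptic) (V V' : HeightOneSpectrum (𝓞 K) → WeierstrassCurve (𝓞 K))
    (hV : ∀ v, IsMinAt E v (V v)) (hV' : ∀ v, IsMinAt E v (V' v)) :
    ∃ R : ℂ → ℂ, MeromorphicOn R Set.univ ∧ meromorphicOrderAt R 1 = 0 ∧
      ∀ s : ℂ, 3 / 2 < s.re → R s ≠ 0 ∧ LL V s = R s * LL V' s := by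
  have e : E.map (algebraMap K K) = E := E.map_id
  obtain ⟨R, hR, hR1, hRL⟩ := relation_one (ι := Bool) (fun _ => K) (fun i => if i then 1 else 0)
    (fun i => if i then 0 else 1) (D := (1 : 𝓞 K)) one_ne_zero (by
      intro k _ _ φ _
      simp) E hE (fun i => if i then V else V') (by
      rintro (_ | _) w
      · rw [e]
        exact hV' w
      · rw [e]
        exact hV w)
  refine ⟨R, hR, hR1, fun s hs => ?_⟩
  obtain ⟨h1, h2⟩ := hRL s hs
  refine ⟨h1, ?_⟩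
  simp only [Fintype.prod_bool, if_true, Bool.false_eq_true, if_false, pow_one, pow_zero, mul_one,
    one_mul] at h2
  exact h2

theorem RC.all {k : ℕ} {U : Set ℂ} (h1 : (1 : ℂ) ∈ U) {E : WeierstrassCurve K} (hE : E.IsElliptic)
    (h : RC k U E) :
    ∃ r : ℕ, Module.rank ℤ E.toAffine.Point = r ∧
      ∀ W : HeightOneSpectrum (𝓞 K) → WeierstrassCurve (𝓞 K), (∀ v, IsMinAt E v (W v)) →
      ∃ Λ : ℂ → ℂ, MeromorphicOn Λ U ∧ (∀ s : ℂ, 3 / 2 < s.re → Λ s = LL W s ^ k) ∧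
        meromorphicOrderAt Λ 1 = (((k : ℤ) * (r : ℤ) : ℤ) : WithTop ℤ) := by
  obtain ⟨r, hr, V, hV, Λ, hΛ, hL, ho⟩ := h
  refine ⟨r, hr, fun W hW => ?_⟩
  obtain ⟨R, hR, hR1, hRL⟩ := models_one hE W V hW hV
  have hRU : MeromorphicOn R U := fun x _ => hR x trivial
  refine ⟨R ^ k * Λ, (hRU.pow k).mul hΛ, fun s hs => ?_, ?_⟩
  · rw [Pi.mul_apply, Pi.pow_apply, (hRL s hs).2, mul_pow, hL s hs]
  · rw [meromorphicOrderAt_mul ((hR 1 trivial).pow k) (hΛ 1 h1),
      meromorphicOrderAt_pow (hR 1 trivial), hR1, mul_zero, zero_add, ho]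

/-- from the power to the function itself -/
theorem RC.root {k : ℕ} (hk : k ≠ 0) {U : Set ℂ} (hU : Dom U) {E : WeierstrassCurve K}
    (hE : E.IsElliptic) (h : RC k U E) (hc : Cont E U 1) : RC 1 U E := by
  obtain ⟨r, hr, hall⟩ := h.all hU.one hE
  obtain ⟨V, hV, Λ, hΛ, hL⟩ := hc
  obtain ⟨Λ', hΛ', hL', ho⟩ := hall V hV
  refine ⟨r, hr, V, hV, Λ, hΛ, hL, ?_⟩
  have h1 : meromorphicOrderAt (Λ ^ k) 1 = meromorphicOrderAt Λ' 1 := by
    refine order_eq hU.conn hU.half hU.one (hΛ.pow k) hΛ' fun s hs => ?_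
    rw [Pi.pow_apply, hL s hs, hL' s hs, pow_one]
  have h2 : meromorphicOrderAt Λ 1 ≠ ⊤ := order_ne_top hU.conn hU.half hU.one hΛ fun s hs => by
    rw [hL s hs, pow_one]
    exact LL_ne_zero hE hV hs
  obtain ⟨a, ha⟩ := WithTop.ne_top_iff_exists.1 h2
  rw [meromorphicOrderAt_pow (hΛ 1 hU.one), ho, ← ha] at h1
  have h3 : (((k : ℤ) * a : ℤ) : WithTop ℤ) = (((k : ℤ) * (r : ℤ) : ℤ) : WithTop ℤ) := by
    rw [← h1]
    rfl
  have h4 : (k : ℤ) * a = (k : ℤ) * (r : ℤ) := WithTop.coe_injective h3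
  have h5 : a = (r : ℤ) := mul_left_cancel₀ (by exact_mod_cast hk) h4
  rw [← ha, h5]
  norm_num

theorem RC.cont {k : ℕ} {U : Set ℂ} {E : WeierstrassCurve K} (h : RC k U E) : Cont E U k := by
  obtain ⟨r, -, V, hV, Λ, hΛ, hL, -⟩ := h
  exact ⟨V, hV, Λ, hΛ, hL⟩

variable {L : Type} [Field L] [NumberField L] [Algebra K L] [IsGalois K L]

/-- **The conjecture along relations.** -/
theorem RC_rel {U : Set ℂ} (h1 : (1 : ℂ) ∈ U)
    {ι : Type} [Fintype ι] [Nonempty ι] (Z : ι → Ext K) (f : ∀ i, (Z i).F →ₐ[K] L) (e : ι → ℤ)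
    (m : ℕ) (h : ∀ g : Gal(L/K), ∑ i, e i * fx (f i).fieldRange.fixingSubgroup g = m)
    (E : WeierstrassCurve K) (hE : E.IsElliptic)
    (hZ : ∀ i, RC 1 U (E.map (algebraMap K (Z i).F))) : RC m U E := by
  obtain ⟨V0, hV0⟩ := exists_minimal E hE
  choose r hr VZ hVZ Λ hΛ hL ho using hZ
  obtain ⟨R, hR, hR1, hRL⟩ := L_rel Z f e m h E hE V0 hV0 VZ hVZ
  obtain ⟨r0, hr0, hsum⟩ := rank_rel E (fun i => (Z i).F) f e m h r hr
  have hRU : MeromorphicOn R U := fun x _ => hR x trivial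
  refine ⟨r0, hr0, V0, hV0, R * ∏ i, (Λ i) ^ (e i),
    hRU.mul (MeromorphicOn.prod fun i _ => (hΛ i).zpow _), fun s hs => ?_, ?_⟩
  · rw [(hRL s hs).2, Pi.mul_apply, Finset.prod_apply]
    congr 1
    refine Finset.prod_congr rfl fun i _ => ?_
    rw [Pi.pow_apply, hL i s hs, pow_one]
  · rw [meromorphicOrderAt_mul (hR 1 trivial)
      (MeromorphicAt.prod fun i _ => (hΛ i 1 h1).zpow _), hR1, zero_add,
      meromorphicOrderAt_prod fun i _ => (hΛ i 1 h1).zpow _]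
    have h4 : ∀ i, meromorphicOrderAt (Λ i ^ e i) 1 = ((e i * r i : ℤ) : WithTop ℤ) := fun i => by
      rw [meromorphicOrderAt_zpow (hΛ i 1 h1), ho i, Nat.cast_one, one_mul]
      rfl
    rw [Finset.sum_congr rfl fun i _ => h4 i, ← WithTop.coe_sum, hsum]

/-- The conjecture over the fields of a relation. -/
theorem RC_gal {U : Set ℂ} (h1 : (1 : ℂ) ∈ U) (S : Finset (IntermediateField K L)) (m : ℕ)
    (hm : m ≠ 0) (n : IntermediateField K L → ℤ)
    (h : ∀ g : Gal(L/K), ∑ F ∈ S, n F * fx F.fixingSubgroup g = m)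
    (E : WeierstrassCurve K) (hE : E.IsElliptic)
    (hS : ∀ F ∈ S, RC 1 U (E.map (algebraMap K F))) : RC m U E := by
  classical
  have hne : Nonempty S := by
    by_contra hne
    have h2 := h 1
    have h3 : S = ∅ := by
      rw [Finset.eq_empty_iff_forall_notMem]
      intro F hF
      exact hne ⟨⟨F, hF⟩⟩
    rw [h3, Finset.sum_empty] at h2
    exact hm (by exact_mod_cast h2.symm)
  refine RC_rel h1 (L := L) (ι := S) (fun F => ⟨F.1⟩) (fun F => F.1.val) (fun F => n F.1) m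
    (fun g => ?_) E hE fun F => hS F.1 F.2
  have h2 : ∀ F : IntermediateField K L, F.val.fieldRange = F := fun F =>
    IntermediateField.fieldRange_val (S := F)
  simp only [h2]
  rw [← h g]
  exact Finset.sum_coe_sort S (fun F => n F * fx F.fixingSubgroup g)

end

end Pool.Agent.U643.BSD
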