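import Pool.Agent.U643.BSD.Fld
import Pool.Agent.U643.BSD.Rel

/-! Test fields for the rank conjecture. -/

set_option autoImplicit false

namespace Pool.Agent.U643.BSD

open NumberField IsDedekindDomain
open Pool.Agent.R433.MD

/-- a group with a cyclic normal subgroup of `p`-power index -/
def Hyp (G : Type) [Group G] : Prop :=
  ∃ p : ℕ, p.Prime ∧ ∃ C : Subgroup G, C.Normal ∧ IsCyclic C ∧ ∀ g : G, ∃ k : ℕ, g ^ p ^ k ∈ C

theorem Hyp.of_equiv {G G' : Type} [Group G] [Group G'] (e : G ≃* G') (h : Hyp G) : Hyp G' := by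
  obtain ⟨p, hp, C, hC, hcyc, hpow⟩ := h
  refine ⟨p, hp, C.map e.toMonoidHom, Subgroup.Normal.map hC _ e.surjective,
    isCyclic_of_surjective (e.toMonoidHom.subgroupMap C) (e.toMonoidHom.subgroupMap_surjective C),
    fun g => ?_⟩
  obtain ⟨k, hk⟩ := hpow (e.symm g)
  refine ⟨k, _, hk, ?_⟩
  change e (e.symm g ^ p ^ k) = g ^ p ^ k
  rw [map_pow, e.apply_symm_apply]

theorem hyp_of_cyclic {G : Type} [Group G] (h : IsCyclic G) : Hyp G := by
  refine ⟨2, Nat.prime_two, ⊤, inferInstance, ?_, fun g => ⟨0, trivial⟩⟩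
  exact isCyclic_of_surjective (Subgroup.topEquiv (G := G)).symm.toMonoidHom
    (Subgroup.topEquiv (G := G)).symm.surjective

theorem hyp_of_isHyper {G : Type} [Group G] {p : ℕ} (hp : p.Prime) {H : Subgroup G}
    (h : IsHyper p H) : Hyp H := by
  obtain ⟨C, hC, hcyc, -, hnorm, hpow⟩ := h
  refine ⟨p, hp, C.subgroupOf H, ⟨?_⟩, ?_, fun g => ?_⟩
  · intro c hc g
    exact hnorm g.1 g.2 c.1 hc
  · have e := Subgroup.subgroupOfEquivOfLe hC
    exact isCyclic_of_surjective e.symm.toMonoidHom e.symm.surjective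
  · obtain ⟨k, hk⟩ := hpow g.1 g.2
    exact ⟨k, hk⟩

/-- relations with cyclic and hyperelementary subgroups -/
theorem rel_hyper (K L : Type) [Field K] [NumberField K] [Field L] [NumberField L] [Algebra K L]
    [IsGalois K L] (P : Set ℕ) :
    ∃ (m : ℕ) (S : Finset (IntermediateField K L)) (n : IntermediateField K L → ℤ), m ≠ 0 ∧
      (∀ p ∈ P, p.Prime → ¬ p ∣ m) ∧
      (∀ F ∈ S, IsCyclic F.fixingSubgroup ∨ ∃ p ∈ P, p.Prime ∧ IsHyper p F.fixingSubgroup) ∧
      ∀ g : Gal(L/K), ∑ F ∈ S, n F * fx F.fixingSubgroup g = m := by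
  refine gal_unit
    {F : IntermediateField K L | IsCyclic F.fixingSubgroup ∨
      ∃ p ∈ P, p.Prime ∧ IsHyper p F.fixingSubgroup}
    (by
      intro F hF F' _
      have hle : (F ⊔ F').fixingSubgroup ≤ F.fixingSubgroup := by
        rw [IntermediateField.fixingSubgroup_sup]
        exact inf_le_left
      rcases hF with h | ⟨p, hp, hpp, h⟩
      · exact Or.inl (isCyclic_of_injective (Subgroup.inclusion hle)
          (Subgroup.inclusion_injective hle))
      · exact Or.inr ⟨p, hp, hpp, h.le hle⟩)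
    (by
      intro F hF σ
      have e : (F.map (σ : L →ₐ[K] L)).fixingSubgroup =
          F.fixingSubgroup.map (MulAut.conj σ).toMonoidHom := IsGalois.map_fixingSubgroup F σ
      rw [Set.mem_ofPred_eq, e]
      rcases hF with h | ⟨p, hp, hpp, h⟩
      · let e' := F.fixingSubgroup.equivMapOfInjective (MulAut.conj σ).toMonoidHom
          (MulAut.conj σ).injective
        exact Or.inl (isCyclic_of_surjective e'.toMonoidHom e'.surjective)
      · exact Or.inr ⟨p, hp, hpp, h.conj σ⟩) P
    (by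
      intro g
      have e : (IntermediateField.fixedField (Subgroup.zpowers g)).fixingSubgroup =
        Subgroup.zpowers g := IntermediateField.fixingSubgroup_fixedField _
      refine ⟨IntermediateField.fixedField (Subgroup.zpowers g), Or.inl ?_, ?_⟩
      · rw [e]
        infer_instance
      · have h1 := fx_eq_emb (IntermediateField.fixedField (Subgroup.zpowers g)) g
        intro h
        rw [h, e, fx, Nat.cast_zero, Nat.cast_eq_zero, Nat.card_eq_zero] at h1
        rcases h1 with h1 | h1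
        · refine h1.false ⟨((1 : Gal(L/K)) : Gal(L/K) ⧸ Subgroup.zpowers g), ?_⟩
          change ((g * 1 : Gal(L/K)) : Gal(L/K) ⧸ Subgroup.zpowers g) = _
          rw [QuotientGroup.eq, mul_one, mul_one]
          exact Subgroup.inv_mem _ (Subgroup.mem_zpowers g)
        · exact h1.not_finite inferInstance)
    (by
      intro g p hp hpp
      obtain ⟨H, hH, h⟩ := hyper_count hpp g
      have e : (IntermediateField.fixedField H).fixingSubgroup = H :=
        IntermediateField.fixingSubgroup_fixedField _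
      refine ⟨IntermediateField.fixedField H, Or.inr ⟨p, hp, hpp, ?_⟩, ?_⟩
      · rw [e]
        exact hH
      · have h1 := fx_eq_emb (IntermediateField.fixedField H) g
        rw [e] at h1
        rw [h1] at h
        exact_mod_cast h)

/-- **Test fields, hyperelementary case.** -/
theorem test_hyper (K M : Type) [Field K] [NumberField K] [Field M] [NumberField M] [Algebra K M]
    {m n : ℕ} (hm : 0 < m) (hn : 0 < n) (hmn : Nat.Coprime m n) :
    ∃ (L : Type) (_ : Field L) (_ : NumberField L) (_ : Algebra K L) (_ : IsGalois K L),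
      Nonempty (M →ₐ[K] L) ∧ ∃ S : Finset (IntermediateField K L),
        (∀ F ∈ S, (m ∣ Module.finrank K F ∨ n ∣ Module.finrank K F) ∧ Hyp Gal(L/F)) ∧
        ∀ E : WeierstrassCurve K, E.IsElliptic → ∀ U : Set ℂ, (1 : ℂ) ∈ U →
          (∀ F ∈ S, RC 1 U (E.map (algebraMap K F))) → RC 1 U E := by
  obtain ⟨L, iF, iN, iA, iG, hM, B, iB, ρ, lam, hρ, hl0, hl, hB⟩ :=
    exists_big K M (Nat.mul_pos hm hn)
  obtain ⟨k, S, c, hk0, hkP, hS, hsum⟩ := rel_hyper K L Set.univ
  have hk : k = 1 := by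
    by_contra h
    obtain ⟨p, hp, hpk⟩ := Nat.exists_prime_and_dvd h
    exact hkP p trivial hp hpk
  refine ⟨L, iF, iN, iA, iG, hM, S, fun F hF => ?_, fun E hE U h1 h => ?_⟩
  · have e1 : Module.finrank K F = F.fixingSubgroup.index :=
      IntermediateField.finrank_eq_fixingSubgroup_index (L := F)
    rw [e1]
    have e2 : F.fixingSubgroup ≃* Gal(L/F) := IntermediateField.fixingSubgroupEquiv F
    rcases hS F hF with h | ⟨p, -, hp, h⟩
    · exact ⟨Or.inl ((dvd_mul_right m n).trans (index_cyclic ρ hρ hl hl0 hB _)),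
        (hyp_of_cyclic h).of_equiv e2⟩
    · exact ⟨index_coprime ρ hρ hl hl0 hmn hB hp h, (hyp_of_isHyper hp h).of_equiv e2⟩
  · have h2 := RC_gal h1 S k hk0 c hsum E hE h
    rwa [hk] at h2

/-- **Test fields, cyclic case.** -/
theorem test_cyclic (K M : Type) [Field K] [NumberField K] [Field M] [NumberField M] [Algebra K M]
    {n : ℕ} (hn : 0 < n) :
    ∃ (L : Type) (_ : Field L) (_ : NumberField L) (_ : Algebra K L) (_ : IsGalois K L),
      Nonempty (M →ₐ[K] L) ∧ ∃ (k : ℕ) (S : Finset (IntermediateField K L)), k ≠ 0 ∧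
        (∀ F ∈ S, n ∣ Module.finrank K F ∧ IsCyclic Gal(L/F)) ∧
        ∀ E : WeierstrassCurve K, E.IsElliptic → ∀ U : Set ℂ, (1 : ℂ) ∈ U →
          (∀ F ∈ S, RC 1 U (E.map (algebraMap K F))) → RC k U E := by
  obtain ⟨L, iF, iN, iA, iG, hM, B, iB, ρ, lam, hρ, hl0, hl, hB⟩ := exists_big K M hn
  obtain ⟨k, S, c, hk0, -, hS, hsum⟩ := rel_hyper K L ∅
  refine ⟨L, iF, iN, iA, iG, hM, k, S, hk0, fun F hF => ?_, fun E hE U h1 h => ?_⟩
  · have e1 : Module.finrank K F = F.fixingSubgroup.index :=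
      IntermediateField.finrank_eq_fixingSubgroup_index (L := F)
    rw [e1]
    have e2 : F.fixingSubgroup ≃* Gal(L/F) := IntermediateField.fixingSubgroupEquiv F
    rcases hS F hF with h | ⟨p, hp, -⟩
    · exact ⟨index_cyclic ρ hρ hl hl0 hB _,
        isCyclic_of_surjective e2.toMonoidHom e2.surjective⟩
    · exact absurd hp (Set.notMem_empty p)
  · exact RC_gal h1 S k hk0 c hsum E hE h

end Pool.Agent.U643.BSD
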